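import Pool.Agent.N62.AG.Stm

/-!
Project AG (helper62): the class of the discriminants.
-/

set_option autoImplicit false

namespace Pool.Agent.N524.AG.CLS

open Pool.Agent.N62.AG

lemma natAbs_dsc (N : ℕ) : (dsc N).natAbs = N := by
  unfold dsc
  split_ifs <;> simp

lemma dvd_dsc (p N : ℕ) : (p : ℤ) ∣ dsc N ↔ p ∣ N := by
  rw [Int.natCast_dvd, natAbs_dsc]

lemma sqf_dsc (N : ℕ) : Squarefree (dsc N) ↔ Squarefree N := by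
  rw [← Int.squarefree_natAbs, natAbs_dsc]

lemma mod_dsc (N : ℕ) : (dsc N % 4 = 1 ∧ (dsc N % 7 = 1 ∨ dsc N % 7 = 2 ∨ dsc N % 7 = 4)) ↔
    (N % 4 = 1 ∧ (N % 7 = 1 ∨ N % 7 = 2 ∨ N % 7 = 4) ∨
    N % 4 = 3 ∧ (N % 7 = 3 ∨ N % 7 = 5 ∨ N % 7 = 6)) := by
  unfold dsc
  split_ifs with h
  · constructor <;> intro h1 <;> omega
  · constructor <;> intro h1 <;> omega

theorem t : S_CLS := by
  intro N
  unfold cls
  rw [sqf_dsc]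
  have hm := mod_dsc N
  constructor
  · rintro ⟨h1, h2, h3⟩
    obtain ⟨h4, h5⟩ := hm.2 h1
    refine ⟨h2, h4, h5, fun p hp hpN => ?_⟩
    rw [dvd_dsc] at hpN
    have hN : 0 < N := Nat.pos_of_ne_zero h2.ne_zero
    obtain ⟨h6, h7⟩ := h3 p (Nat.lt_succ_of_le (Nat.le_of_dvd hN hpN)) ⟨hp, hpN⟩
    refine ⟨h6, ?_⟩
    rcases h7 with h7 | h7
    · exact Or.inl ⟨hp, h7⟩
    · exact Or.inr ⟨hp, h7⟩
  · rintro ⟨h2, h4, h5, h3⟩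
    refine ⟨hm.1 ⟨h4, h5⟩, h2, fun p _ hp => ?_⟩
    obtain ⟨h6, h7⟩ := h3 p hp.1 ((dvd_dsc p N).2 hp.2)
    refine ⟨h6, ?_⟩
    rcases h7 with h7 | h7
    · exact Or.inl h7.2
    · exact Or.inr h7.2

end Pool.Agent.N524.AG.CLS
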